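import Mathlib

namespace Pool.Agent.Results.MP_cda74c_nt.Full

open Finset

/-! ### Statement -/

/-- The residue class `a mod m = {n : n ≡ a (mod m)}`, a set of integers. -/
def residueClass (a : ℤ) (m : ℕ) : Set ℤ := {n | n ≡ a [ZMOD (m : ℤ)]}

/-- An infinite disjoint covering system: a family of residue classes `a i mod m i` with moduli
`m i ≥ 2`, indexed by an infinite set, such that every positive integer lies in exactly one of
the classes. -/
structure IsInfiniteDisjointCoveringSystem {ι : Type*} (a : ι → ℤ) (m : ι → ℕ) : Prop where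
  infinite : Infinite ι
  two_le : ∀ i, 2 ≤ m i
  exactly_one : ∀ n : ℤ, 0 < n → ∃! i, n ∈ residueClass (a i) (m i)


/-- Counting on `ZMod (L₁ L₂)` through the Chinese remainder theorem. -/
theorem card_crt (L₁ L₂ : ℕ) (h1 : 0 < L₁) (h2 : 0 < L₂) (hco : Nat.Coprime L₁ L₂)
    (P : ℕ × ℕ → Prop) [DecidablePred P] :
    ((range (L₁ * L₂)).filter (fun z => P (z % L₁, z % L₂))).card
      = ((range L₁ ×ˢ range L₂).filter P).card := by
  apply Finset.card_bij (fun z _ => (z % L₁, z % L₂))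
  · intro z hz
    rw [mem_filter] at hz ⊢
    refine ⟨?_, hz.2⟩
    rw [mem_product, mem_range, mem_range]
    exact ⟨Nat.mod_lt _ h1, Nat.mod_lt _ h2⟩
  · intro z hz w hw h
    rw [mem_filter, mem_range] at hz hw
    have h3 : z ≡ w [MOD L₁] := congrArg Prod.fst h
    have h4 : z ≡ w [MOD L₂] := congrArg Prod.snd h
    have h5 := (Nat.modEq_and_modEq_iff_modEq_mul hco).mp ⟨h3, h4⟩
    exact Nat.ModEq.eq_of_lt_of_lt h5 hz.1 hw.1
  · rintro ⟨u, v⟩ huv
    rw [mem_filter, mem_product, mem_range, mem_range] at huv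
    obtain ⟨⟨hu, hv⟩, hP⟩ := huv
    simp only at hu hv
    set k := Nat.chineseRemainder hco u v with hk
    have hk1 : (k : ℕ) % L₁ = u := by
      have := k.2.1
      rw [Nat.ModEq, Nat.mod_eq_of_lt hu] at this
      exact this
    have hk2 : (k : ℕ) % L₂ = v := by
      have := k.2.2
      rw [Nat.ModEq, Nat.mod_eq_of_lt hv] at this
      exact this
    have hlt : (k : ℕ) < L₁ * L₂ := Nat.chineseRemainder_lt_mul hco u v h1.ne' h2.ne'
    refine ⟨k, ?_, ?_⟩
    · rw [mem_filter, mem_range, hk1, hk2]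
      exact ⟨hlt, hP⟩
    · rw [hk1, hk2]

/-- The number of `x < L` in a residue class modulo a divisor `n` of `L` is `L / n`. -/
theorem card_class (n L : ℕ) (hn : n ∣ L) (hL : 0 < L) (a : ℤ) :
    (((range L).filter (fun x : ℕ => (x : ℤ) ≡ a [ZMOD (n : ℤ)])).card : ℝ) = (L : ℝ) / n := by
  have hn0 : 0 < n := Nat.pos_of_dvd_of_pos hn hL
  have hn0' : (0 : ℤ) < n := by exact_mod_cast hn0
  set r : ℕ := (a % n).toNat with hr
  have hr1 : (r : ℤ) = a % n := Int.toNat_of_nonneg (Int.emod_nonneg _ hn0'.ne')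
  have hiff : ∀ x : ℕ, ((x : ℤ) ≡ a [ZMOD (n : ℤ)]) ↔ x ≡ r [MOD n] := by
    intro x
    rw [← Int.natCast_modEq_iff, hr1]
    constructor
    · intro h
      exact h.trans (Int.mod_modEq a n).symm
    · intro h
      exact h.trans (Int.mod_modEq a n)
  have h1 : (range L).filter (fun x : ℕ => (x : ℤ) ≡ a [ZMOD (n : ℤ)])
      = (range L).filter (fun x : ℕ => x ≡ r [MOD n]) := by
    apply filter_congr
    intro x _
    exact hiff x
  rw [h1, ← Nat.count_eq_card_filter_range, Nat.count_modEq_card _ hn0]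
  obtain ⟨k, rfl⟩ := hn
  have hk : (n * k) % n = 0 := Nat.mul_mod_right n k
  rw [hk, Nat.mul_div_cancel_left k hn0]
  simp only [not_lt_zero, if_false, add_zero]
  push_cast
  field_simp

/-- Splitting a sum over divisors of `L₁ L₂`. -/
theorem sum_split (L₁ L₂ : ℕ) (h1 : 0 < L₁) (h2 : 0 < L₂) (hco : Nat.Coprime L₁ L₂)
    (S : Finset ℕ) (hS : ∀ n ∈ S, n ∣ L₁ * L₂) (f : ℕ → ℝ) :
    ∑ n ∈ S, f n
      = ∑ s ∈ L₁.divisors, ∑ t ∈ L₂.divisors.filter (fun t => s * t ∈ S), f (s * t) := by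
  have hstep : ∑ s ∈ L₁.divisors, ∑ t ∈ L₂.divisors.filter (fun t => s * t ∈ S), f (s * t)
      = ∑ p ∈ (L₁.divisors ×ˢ L₂.divisors).filter (fun p => p.1 * p.2 ∈ S), f (p.1 * p.2) := by
    rw [sum_filter, sum_product]
    apply sum_congr rfl
    intro s _
    rw [sum_filter]
  rw [hstep]
  symm
  apply Finset.sum_bij (fun p _ => p.1 * p.2)
  · intro p hp
    exact (mem_filter.mp hp).2
  · intro p hp q hq h
    have hp' := (mem_filter.mp hp).1
    have hq' := (mem_filter.mp hq).1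
    exact hco.mul_injOn_divisors (by exact_mod_cast hp') (by exact_mod_cast hq') h
  · intro n hn
    have hd := hS n hn
    have hg : n = Nat.gcd n L₁ * Nat.gcd n L₂ := by
      rw [← Nat.Coprime.gcd_mul n hco]
      exact (Nat.gcd_eq_left hd).symm
    refine ⟨(Nat.gcd n L₁, Nat.gcd n L₂), ?_, hg.symm⟩
    rw [mem_filter, mem_product]
    refine ⟨⟨Nat.mem_divisors.mpr ⟨Nat.gcd_dvd_right _ _, h1.ne'⟩,
      Nat.mem_divisors.mpr ⟨Nat.gcd_dvd_right _ _, h2.ne'⟩⟩, ?_⟩
    simp only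
    rw [← hg]
    exact hn
  · intro p _
    rfl

theorem zmod_of_mod {z L n : ℕ} (hn : n ∣ L) {b : ℤ} :
    ((z : ℤ) ≡ b [ZMOD (n : ℤ)]) ↔ (((z % L : ℕ) : ℤ) ≡ b [ZMOD (n : ℤ)]) := by
  have h : ((z % L : ℕ) : ℤ) ≡ (z : ℤ) [ZMOD (n : ℤ)] := by
    have h1 : z % L ≡ z [MOD n] := (Nat.mod_modEq z L).of_dvd hn
    exact_mod_cast Int.natCast_modEq_iff.mpr h1
  constructor
  · intro h2; exact h.trans h2
  · intro h2; exact h.symm.trans h2

open scoped Classical in
/-- The set of `x < L` lying in one of the classes `a n mod n`, `n ∈ S`. -/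
noncomputable def covered (L : ℕ) (S : Finset ℕ) (a : ℕ → ℤ) : Finset ℕ :=
  (range L).filter (fun x : ℕ => ∃ n ∈ S, (x : ℤ) ≡ a n [ZMOD (n : ℤ)])

/-- Geometric sum bound for prime powers. -/
theorem prime_pow_case (p k : ℕ) (hp : p.Prime) (hk : 0 < k) (S : Finset ℕ) (a : ℕ → ℤ)
    (hS : ∀ n ∈ S, n ∣ p ^ k) :
    (Nat.totient (p ^ k) : ℝ) * ∑ n ∈ S, (1 : ℝ) / n ≤ ((covered (p ^ k) S a).card : ℝ) := by
  rcases S.eq_empty_or_nonempty with rfl | hne
  · simp
  have hp1 : (1 : ℝ) < p := by exact_mod_cast hp.one_lt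
  have hp0 : (0 : ℝ) < p := by linarith
  have hL : 0 < p ^ k := Nat.pow_pos hp.pos
  set n0 := S.min' hne with hn0
  have hn0S : n0 ∈ S := S.min'_mem hne
  obtain ⟨e0, he0, hn0e⟩ := (Nat.dvd_prime_pow hp).mp (hS n0 hn0S)
  -- lower bound for the count
  have hcount : ((p : ℝ) ^ k) / (p : ℝ) ^ e0 ≤ ((covered (p ^ k) S a).card : ℝ) := by
    have h1 := card_class n0 (p ^ k) (hS n0 hn0S) hL (a n0)
    have h2 : (range (p ^ k)).filter (fun x : ℕ => (x : ℤ) ≡ a n0 [ZMOD (n0 : ℤ)])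
        ⊆ covered (p ^ k) S a := by
      intro x hx
      rw [mem_filter] at hx
      unfold covered
      rw [mem_filter]
      exact ⟨hx.1, n0, hn0S, hx.2⟩
    have h3 : (((range (p ^ k)).filter
        (fun x : ℕ => (x : ℤ) ≡ a n0 [ZMOD (n0 : ℤ)])).card : ℝ)
        ≤ ((covered (p ^ k) S a).card : ℝ) := by exact_mod_cast card_le_card h2
    rw [h1, hn0e] at h3
    push_cast at h3
    exact h3
  -- upper bound for the sum
  have hsum : ∑ n ∈ S, (1 : ℝ) / n ≤ ∑ e ∈ Ico e0 (k + 1), (1 / (p : ℝ)) ^ e := by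
    have hsub : S ⊆ (Ico e0 (k + 1)).image (fun e => p ^ e) := by
      intro n hn
      obtain ⟨e, he, hne'⟩ := (Nat.dvd_prime_pow hp).mp (hS n hn)
      rw [mem_image]
      refine ⟨e, ?_, hne'.symm⟩
      rw [mem_Ico]
      refine ⟨?_, by omega⟩
      have h1 : n0 ≤ n := S.min'_le n hn
      rw [hn0e, hne'] at h1
      exact (Nat.pow_le_pow_iff_right hp.one_lt).mp h1
    calc ∑ n ∈ S, (1 : ℝ) / n ≤ ∑ n ∈ (Ico e0 (k + 1)).image (fun e => p ^ e), (1 : ℝ) / n := by
          apply sum_le_sum_of_subset_of_nonneg hsub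
          intro i _ _
          positivity
      _ = ∑ e ∈ Ico e0 (k + 1), (1 : ℝ) / ((p ^ e : ℕ) : ℝ) := by
          rw [sum_image]
          intro x _ y _ h
          exact Nat.pow_right_injective hp.two_le h
      _ = ∑ e ∈ Ico e0 (k + 1), (1 / (p : ℝ)) ^ e := by
          apply sum_congr rfl
          intro e _
          rw [Nat.cast_pow, div_pow, one_pow]
  have hgeom : (1 - 1 / (p : ℝ)) * ∑ e ∈ Ico e0 (k + 1), (1 / (p : ℝ)) ^ e
      ≤ (1 / (p : ℝ)) ^ e0 := by
    have h1 := geom_sum_Ico_mul (1 / (p : ℝ)) (show e0 ≤ k + 1 by omega)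
    have h2 : (0 : ℝ) < (1 / (p : ℝ)) ^ (k + 1) := by positivity
    nlinarith
  have htot : (Nat.totient (p ^ k) : ℝ) = (p : ℝ) ^ k * (1 - 1 / (p : ℝ)) := by
    rw [Nat.totient_prime_pow hp hk, Nat.cast_mul, Nat.cast_pow, Nat.cast_sub hp.one_lt.le]
    have h3 : (p : ℝ) ^ k = (p : ℝ) ^ (k - 1) * p := by
      rw [← pow_succ]
      congr 1
      omega
    rw [h3]
    field_simp
    simp
  calc (Nat.totient (p ^ k) : ℝ) * ∑ n ∈ S, (1 : ℝ) / n
      ≤ (Nat.totient (p ^ k) : ℝ) * ∑ e ∈ Ico e0 (k + 1), (1 / (p : ℝ)) ^ e :=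
        mul_le_mul_of_nonneg_left hsum (by positivity)
    _ = (p : ℝ) ^ k * ((1 - 1 / (p : ℝ)) * ∑ e ∈ Ico e0 (k + 1), (1 / (p : ℝ)) ^ e) := by
        rw [htot]; ring
    _ ≤ (p : ℝ) ^ k * (1 / (p : ℝ)) ^ e0 :=
        mul_le_mul_of_nonneg_left hgeom (by positivity)
    _ = ((p : ℝ) ^ k) / (p : ℝ) ^ e0 := by
        rw [div_pow, one_pow]; ring
    _ ≤ ((covered (p ^ k) S a).card : ℝ) := hcount

/-- `totient(L) * sum_{n in S} 1/n ≤ #(union of the classes a n mod n, n in S, in range L)`. -/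
theorem lemmaA (L : ℕ) : 0 < L → ∀ (S : Finset ℕ) (a : ℕ → ℤ), (∀ n ∈ S, n ∣ L) →
    (Nat.totient L : ℝ) * ∑ n ∈ S, (1 : ℝ) / n ≤ ((covered L S a).card : ℝ) := by
  classical
  induction L using Nat.recOnPosPrimePosCoprime with
  | zero => intro h; exact absurd h (lt_irrefl _)
  | one =>
    intro _ S a hS
    rcases S.eq_empty_or_nonempty with rfl | ⟨n, hn⟩
    · simp
    have hn1 : n = 1 := Nat.dvd_one.mp (hS n hn)
    subst hn1
    have hSeq : S = {1} := by
      ext m
      rw [mem_singleton]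
      constructor
      · intro hm; exact Nat.dvd_one.mp (hS m hm)
      · rintro rfl; exact hn
    rw [hSeq]
    have h0 : (0 : ℕ) ∈ covered 1 {1} a := by
      unfold covered
      rw [mem_filter, mem_range]
      refine ⟨by norm_num, 1, mem_singleton_self 1, ?_⟩
      simpa using Int.modEq_one
    have : 1 ≤ (covered 1 {1} a).card := card_pos.mpr ⟨0, h0⟩
    simp only [Nat.totient_one, Nat.cast_one, sum_singleton]
    norm_num
    exact ⟨0, h0⟩
  | prime_pow p k hp hk =>
    intro _ S a hS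
    exact prime_pow_case p k hp hk S a hS
  | coprime L₁ L₂ h1 h2 hco ih1 ih2 =>
    intro _ S a hS
    have hL1 : 0 < L₁ := by omega
    have hL2 : 0 < L₂ := by omega
    -- for `s ∣ L₁`: the cofactors `t ∣ L₂`
    set B : ℕ → Finset ℕ := fun s => L₂.divisors.filter (fun t => s * t ∈ S) with hB
    set T : ℕ → Finset ℕ := fun s => covered L₂ (B s) (fun t => a (s * t)) with hT
    have hTsum : ∀ s, (Nat.totient L₂ : ℝ) * ∑ t ∈ B s, (1 : ℝ) / t ≤ ((T s).card : ℝ) := by
      intro s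
      apply ih2 hL2
      intro t ht
      exact Nat.dvd_of_mem_divisors (mem_filter.mp ht).1
    -- fibres
    set W : ℕ → Finset ℕ := fun y => L₁.divisors.filter (fun s => y ∈ T s) with hW
    have hchoice : ∀ y s, ∃ t, y ∈ T s → (t ∈ B s ∧ (y : ℤ) ≡ a (s * t) [ZMOD (t : ℤ)]) := by
      intro y s
      by_cases h : y ∈ T s
      · simp only [hT, covered, mem_filter] at h
        obtain ⟨_, t, ht, hy⟩ := h
        exact ⟨t, fun _ => ⟨ht, hy⟩⟩
      · exact ⟨0, fun h' => absurd h' h⟩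
    choose c hc using hchoice
    have hfib : ∀ y, (Nat.totient L₁ : ℝ) * ∑ s ∈ W y, (1 : ℝ) / s
        ≤ ((covered L₁ (W y) (fun s => a (s * c y s))).card : ℝ) := by
      intro y
      apply ih1 hL1
      intro s hs
      exact Nat.dvd_of_mem_divisors (mem_filter.mp hs).1
    -- the total count
    have hcountle : ∑ y ∈ range L₂, ((covered L₁ (W y) (fun s => a (s * c y s))).card : ℝ)
        ≤ ((covered (L₁ * L₂) S a).card : ℝ) := by
      have hcrt := card_crt L₁ L₂ hL1 hL2 hco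
        (fun q => q.1 ∈ covered L₁ (W q.2) (fun s => a (s * c q.2 s)))
      have hsub : (range (L₁ * L₂)).filter
          (fun z => z % L₁ ∈ covered L₁ (W (z % L₂)) (fun s => a (s * c (z % L₂) s)))
          ⊆ covered (L₁ * L₂) S a := by
        intro z hz
        rw [mem_filter] at hz
        obtain ⟨hzr, hz⟩ := hz
        unfold covered at hz ⊢
        rw [mem_filter] at hz ⊢
        obtain ⟨_, s, hs, hzs⟩ := hz
        rw [hW, mem_filter] at hs
        obtain ⟨hsd, hsT⟩ := hs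
        obtain ⟨htB, hyt⟩ := hc _ _ hsT
        set t := c (z % L₂) s with ht
        rw [hB, mem_filter] at htB
        refine ⟨hzr, s * t, htB.2, ?_⟩
        have hsd' : s ∣ L₁ := Nat.dvd_of_mem_divisors hsd
        have htd' : t ∣ L₂ := Nat.dvd_of_mem_divisors htB.1
        have hcost : Nat.Coprime s t := Nat.Coprime.of_dvd hsd' htd' hco
        have e1 : (z : ℤ) ≡ a (s * t) [ZMOD (s : ℤ)] := (zmod_of_mod hsd').mpr hzs
        have e2 : (z : ℤ) ≡ a (s * t) [ZMOD (t : ℤ)] := (zmod_of_mod htd').mpr hyt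
        have := (Int.modEq_and_modEq_iff_modEq_mul (by simpa using hcost)).mp ⟨e1, e2⟩
        exact_mod_cast this
      have h3 : ((range L₁ ×ˢ range L₂).filter
          (fun q => q.1 ∈ covered L₁ (W q.2) (fun s => a (s * c q.2 s)))).card
          = ∑ y ∈ range L₂, (covered L₁ (W y) (fun s => a (s * c y s))).card := by
        rw [card_eq_sum_ones, sum_filter, sum_product_right]
        apply sum_congr rfl
        intro y _
        simp only
        rw [← sum_filter, ← card_eq_sum_ones]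
        congr 1
        ext x
        rw [mem_filter, mem_range]
        constructor
        · intro h; exact h.2
        · intro h
          refine ⟨?_, h⟩
          unfold covered at h
          exact mem_range.mp (mem_filter.mp h).1
      have h4 : ∑ y ∈ range L₂, (covered L₁ (W y) (fun s => a (s * c y s))).card
          ≤ (covered (L₁ * L₂) S a).card := by
        rw [← h3, ← hcrt]
        exact card_le_card hsub
      exact_mod_cast h4
    have hsplit := sum_split L₁ L₂ hL1 hL2 hco S hS (fun n => (1 : ℝ) / n)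
    rw [hsplit, Nat.totient_mul hco, Nat.cast_mul]
    calc (Nat.totient L₁ : ℝ) * (Nat.totient L₂ : ℝ) *
          ∑ s ∈ L₁.divisors, ∑ t ∈ B s, (1 : ℝ) / ((s * t : ℕ) : ℝ)
        = (Nat.totient L₁ : ℝ) * ∑ s ∈ L₁.divisors, (1 / (s : ℝ)) *
          ((Nat.totient L₂ : ℝ) * ∑ t ∈ B s, (1 : ℝ) / t) := by
          rw [mul_assoc, mul_sum (s := L₁.divisors)]
          congr 1
          apply sum_congr rfl
          intro s _
          rw [mul_sum, mul_sum, mul_sum]
          apply sum_congr rfl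
          intro t _
          push_cast
          ring
      _ ≤ (Nat.totient L₁ : ℝ) * ∑ s ∈ L₁.divisors, (1 / (s : ℝ)) * ((T s).card : ℝ) := by
          apply mul_le_mul_of_nonneg_left _ (by positivity)
          apply sum_le_sum
          intro s _
          exact mul_le_mul_of_nonneg_left (hTsum s) (by positivity)
      _ = ∑ y ∈ range L₂, (Nat.totient L₁ : ℝ) * ∑ s ∈ W y, (1 : ℝ) / s := by
          have hTr : ∀ s, ((T s).card : ℝ) = ∑ y ∈ range L₂, if y ∈ T s then (1 : ℝ) else 0 := by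
            intro s
            rw [← sum_filter, card_eq_sum_ones, Nat.cast_sum]
            simp only [Nat.cast_one]
            apply sum_congr _ (fun _ _ => rfl)
            ext y
            rw [mem_filter]
            constructor
            · intro h
              refine ⟨?_, h⟩
              simp only [hT, covered, mem_filter] at h
              exact h.1
            · intro h; exact h.2
          rw [← mul_sum]
          congr 1
          simp only [hW, sum_filter]
          rw [sum_comm]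
          apply sum_congr rfl
          intro s _
          rw [hTr, mul_sum]
          apply sum_congr rfl
          intro y _
          split_ifs <;> simp
      _ ≤ ∑ y ∈ range L₂, ((covered L₁ (W y) (fun s => a (s * c y s))).card : ℝ) :=
          sum_le_sum (fun y _ => hfib y)
      _ ≤ ((covered (L₁ * L₂) S a).card : ℝ) := hcountle

theorem totient_le_mul (L s : ℕ) (hs : s ∣ L) (hL : 0 < L) :
    (Nat.totient L : ℝ) * (1 / (s : ℝ)) ≤ (Nat.totient (L / s) : ℝ) := by
  obtain ⟨m, rfl⟩ := hs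
  have hs0 : 0 < s := Nat.pos_of_ne_zero (by rintro rfl; simp at hL)
  have hm0 : 0 < m := Nat.pos_of_ne_zero (by rintro rfl; simp at hL)
  rw [Nat.mul_div_cancel_left m hs0]
  have h1 := Nat.totient_eq_mul_prod_factors (s * m)
  have h2 := Nat.totient_eq_mul_prod_factors m
  have hle : ∏ p ∈ (s * m).primeFactors, (1 - (p : ℚ)⁻¹) ≤ ∏ p ∈ m.primeFactors, (1 - (p : ℚ)⁻¹) := by
    have hsub : m.primeFactors ⊆ (s * m).primeFactors :=
      Nat.primeFactors_mono (Dvd.intro_left s rfl) (by positivity)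
    rw [← prod_sdiff hsub]
    have hpos : 0 ≤ ∏ p ∈ m.primeFactors, (1 - (p : ℚ)⁻¹) := by
      apply prod_nonneg
      intro p hp
      have hp1 : (1 : ℚ) ≤ p := by exact_mod_cast (Nat.prime_of_mem_primeFactors hp).one_lt.le
      have : (p : ℚ)⁻¹ ≤ 1 := inv_le_one_of_one_le₀ hp1
      linarith
    have hle1 : ∏ p ∈ (s * m).primeFactors \ m.primeFactors, (1 - (p : ℚ)⁻¹) ≤ 1 := by
      apply prod_le_one
      · intro p hp
        have hp' := (mem_sdiff.mp hp).1
        have hp1 : (1 : ℚ) ≤ p := by exact_mod_cast (Nat.prime_of_mem_primeFactors hp').one_lt.le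
        have : (p : ℚ)⁻¹ ≤ 1 := inv_le_one_of_one_le₀ hp1
        linarith
      · intro p _
        have : (0 : ℚ) ≤ (p : ℚ)⁻¹ := by positivity
        linarith
    calc _ ≤ 1 * ∏ p ∈ m.primeFactors, (1 - (p : ℚ)⁻¹) := mul_le_mul_of_nonneg_right hle1 hpos
      _ = _ := one_mul _
  have h3 : (Nat.totient (s * m) : ℚ) * (1 / (s : ℚ)) ≤ (Nat.totient m : ℚ) := by
    rw [h1, h2]
    push_cast
    have hs0' : (0 : ℚ) < s := by exact_mod_cast hs0
    have hm0' : (0 : ℚ) < m := by exact_mod_cast hm0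
    calc (s : ℚ) * m * (∏ p ∈ (s * m).primeFactors, (1 - (p : ℚ)⁻¹)) * (1 / s)
        = m * ∏ p ∈ (s * m).primeFactors, (1 - (p : ℚ)⁻¹) := by field_simp
      _ ≤ m * ∏ p ∈ m.primeFactors, (1 - (p : ℚ)⁻¹) := mul_le_mul_of_nonneg_left hle hm0'.le
  have h4 := (Rat.cast_le (K := ℝ)).mpr h3
  rw [Rat.cast_mul, Rat.cast_div, Rat.cast_natCast, Rat.cast_natCast, Rat.cast_natCast,
    Rat.cast_one] at h4
  exact h4

/-- If every prime factor of `L` is at least `k` and `S` is a set of divisors of `L`, any two of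
which (equal or not) have a common factor, then `k * totient(L) * sum_{s in S} 1/s ≤ L`. -/
theorem lemmaB (L k : ℕ) (hL : 0 < L) (hk : ∀ q : ℕ, q.Prime → q ∣ L → k ≤ q) (S : Finset ℕ)
    (hS : ∀ s ∈ S, s ∣ L) (hpair : ∀ s ∈ S, ∀ t ∈ S, ¬ Nat.Coprime s t) :
    (k : ℝ) * ((Nat.totient L : ℝ) * ∑ s ∈ S, (1 : ℝ) / s) ≤ (L : ℝ) := by
  classical
  set E := (range L).filter (fun x => Nat.gcd L x ∈ S) with hE
  have hEcard : E.card = ∑ s ∈ S, Nat.totient (L / s) := by
    have h1 : E.card = ∑ s ∈ S, (E.filter (fun x => Nat.gcd L x = s)).card :=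
      card_eq_sum_card_fiberwise (fun x hx => (mem_filter.mp hx).2)
    rw [h1]
    apply sum_congr rfl
    intro s hs
    rw [Nat.totient_div_of_dvd (hS s hs), hE, filter_filter]
    congr 1
    apply filter_congr
    intro x _
    constructor
    · intro h; exact h.2
    · intro h; exact ⟨by rw [h]; exact hs, h⟩
  have hEge : (Nat.totient L : ℝ) * ∑ s ∈ S, (1 : ℝ) / s ≤ (E.card : ℝ) := by
    rw [hEcard, Nat.cast_sum, mul_sum]
    apply sum_le_sum
    intro s hs
    exact totient_le_mul L s (hS s hs) hL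
  have hkE : k * E.card ≤ L := by
    have hcard : (range k ×ˢ E).card ≤ (range L).card := by
      apply card_le_card_of_injOn (fun jx => (jx.2 + jx.1) % L)
      · intro jx _
        exact mem_coe.mpr (mem_range.mpr (Nat.mod_lt _ hL))
      · rintro ⟨i, x⟩ hix ⟨j, y⟩ hjy hxy
        rw [mem_coe, mem_product, mem_range] at hix hjy
        obtain ⟨hi, hx⟩ := hix
        obtain ⟨hj, hy⟩ := hjy
        simp only at hi hx hj hy hxy
        rw [hE, mem_filter, mem_range] at hx hy
        have hmod : x + i ≡ y + j [MOD L] := hxy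
        obtain ⟨q, hq, hqg, hqh⟩ := Nat.Prime.not_coprime_iff_dvd.mp
          (hpair _ hx.2 _ hy.2)
        have hqL : q ∣ L := hqg.trans (Nat.gcd_dvd_left _ _)
        have hqx : q ∣ x := hqg.trans (Nat.gcd_dvd_right _ _)
        have hqy : q ∣ y := hqh.trans (Nat.gcd_dvd_right _ _)
        have hkq : k ≤ q := hk q hq hqL
        have hmodq : x + i ≡ y + j [MOD q] := hmod.of_dvd hqL
        have hx0 : x ≡ 0 [MOD q] := (Nat.modEq_zero_iff_dvd).mpr hqx
        have hy0 : y ≡ 0 [MOD q] := (Nat.modEq_zero_iff_dvd).mpr hqy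
        have h1 : i ≡ j [MOD q] := by
          have h2 : 0 + i ≡ 0 + j [MOD q] :=
            ((hx0.symm.add_right i).trans hmodq).trans (hy0.add_right j)
          simpa using h2
        have hij : i = j := Nat.ModEq.eq_of_lt_of_lt h1 (by omega) (by omega)
        subst hij
        have h3 : x ≡ y [MOD L] := Nat.ModEq.add_right_cancel' i hmod
        have hxy' : x = y := Nat.ModEq.eq_of_lt_of_lt h3 hx.1 hy.1
        rw [hxy']
    rw [card_product, card_range, card_range] at hcard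
    exact hcard
  calc (k : ℝ) * ((Nat.totient L : ℝ) * ∑ s ∈ S, (1 : ℝ) / s) ≤ (k : ℝ) * (E.card : ℝ) :=
        mul_le_mul_of_nonneg_left hEge (by positivity)
    _ ≤ (L : ℝ) := by exact_mod_cast hkE

theorem crt_int (m n : ℕ) (hco : Nat.Coprime m n) (b c : ℤ) :
    ∃ x : ℤ, x ≡ b [ZMOD (m : ℤ)] ∧ x ≡ c [ZMOD (n : ℤ)] := by
  have h : IsCoprime (m : ℤ) (n : ℤ) := Nat.isCoprime_iff_coprime.mpr hco
  obtain ⟨u, v, huv⟩ := h
  refine ⟨b * v * n + c * u * m, ?_, ?_⟩
  · apply Int.ModEq.symm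
    rw [Int.modEq_iff_dvd]
    refine ⟨c * u - b * u, ?_⟩
    linear_combination b * huv
  · apply Int.ModEq.symm
    rw [Int.modEq_iff_dvd]
    refine ⟨b * v - c * v, ?_⟩
    linear_combination c * huv

/-- The key inequality for finitely many pairwise disjoint residue classes. -/
theorem main_finite (L₁ L₂ k : ℕ) (h1 : 0 < L₁) (h2 : 0 < L₂) (hco : Nat.Coprime L₂ L₁)
    (hk : ∀ q : ℕ, q.Prime → q ∣ L₂ → k ≤ q)
    (F G : Finset ℕ) (a : ℕ → ℤ)
    (hG : ∀ g ∈ G, g ∣ L₁) (hF : ∀ f ∈ F, f ∣ L₂ * L₁) (hF' : ∀ f ∈ F, ¬ f ∣ L₁)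
    (hdisj : ∀ m ∈ F ∪ G, ∀ n ∈ F ∪ G, m ≠ n →
      ∀ x : ℤ, ¬ (x ≡ a m [ZMOD (m : ℤ)] ∧ x ≡ a n [ZMOD (n : ℤ)])) :
    (k : ℝ) * ((Nat.totient (L₂ * L₁) : ℝ) * ∑ f ∈ F, (1 : ℝ) / f)
      ≤ (L₂ : ℝ) * L₁ * (1 - ∑ g ∈ G, (1 : ℝ) / g) := by
  classical
  set B : ℕ → Finset ℕ := fun s => L₁.divisors.filter (fun t => s * t ∈ F) with hB
  set T : ℕ → Finset ℕ := fun s => covered L₁ (B s) (fun t => a (s * t)) with hT
  have hTsum : ∀ s, (Nat.totient L₁ : ℝ) * ∑ t ∈ B s, (1 : ℝ) / t ≤ ((T s).card : ℝ) := by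
    intro s
    apply lemmaA L₁ h1
    intro t ht
    exact Nat.dvd_of_mem_divisors (mem_filter.mp ht).1
  have hTmem : ∀ s y, y ∈ T s → y < L₁ ∧ ∃ t, t ∣ L₁ ∧ s * t ∈ F ∧
      (y : ℤ) ≡ a (s * t) [ZMOD (t : ℤ)] := by
    intro s y hy
    simp only [hT, covered, mem_filter, mem_range] at hy
    obtain ⟨hy1, t, ht, hyt⟩ := hy
    rw [hB, mem_filter] at ht
    exact ⟨hy1, t, Nat.dvd_of_mem_divisors ht.1, ht.2, hyt⟩
  set C : ℕ → Finset ℕ := fun g => (range L₁).filter (fun y : ℕ => (y : ℤ) ≡ a g [ZMOD (g : ℤ)])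
    with hC
  set V := G.biUnion C with hV
  set U := range L₁ \ V with hU
  have hVsub : V ⊆ range L₁ := by
    intro y hy
    rw [hV, mem_biUnion] at hy
    obtain ⟨g, _, hy⟩ := hy
    exact (mem_filter.mp hy).1
  have hVcard : (V.card : ℝ) = ∑ g ∈ G, (L₁ : ℝ) / g := by
    rw [hV, card_biUnion]
    · rw [Nat.cast_sum]
      apply sum_congr rfl
      intro g hg
      have := card_class g L₁ (hG g hg) h1 (a g)
      rw [← this]
    · intro g hg g' hg' hne
      rw [Function.onFun, disjoint_left]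
      intro y hy hy'
      exact hdisj g (mem_union_right _ hg) g' (mem_union_right _ hg') hne y
        ⟨(mem_filter.mp hy).2, (mem_filter.mp hy').2⟩
  have hUcard : (U.card : ℝ) = L₁ * (1 - ∑ g ∈ G, (1 : ℝ) / g) := by
    have h3 : U.card + V.card = L₁ := by
      rw [hU, card_sdiff_of_subset hVsub, card_range]
      have := card_le_card hVsub
      rw [card_range] at this
      omega
    have h4 : (U.card : ℝ) + V.card = L₁ := by exact_mod_cast h3
    rw [hVcard] at h4
    have h5 : ∑ g ∈ G, (L₁ : ℝ) / g = L₁ * ∑ g ∈ G, (1 : ℝ) / g := by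
      rw [mul_sum]
      apply sum_congr rfl
      intro g _
      ring
    rw [h5] at h4
    linarith
  -- points of `T s` avoid the classes with moduli in `G`
  have hTU : ∀ s, s ∣ L₂ → T s ⊆ U := by
    intro s hs y hy
    obtain ⟨hy1, t, ht, hst, hyt⟩ := hTmem s y hy
    rw [hU, mem_sdiff, mem_range]
    refine ⟨hy1, ?_⟩
    intro hyV
    rw [hV, mem_biUnion] at hyV
    obtain ⟨g, hg, hyg⟩ := hyV
    have hyg' := (mem_filter.mp hyg).2
    have hgL := hG g hg
    have hcos : Nat.Coprime L₁ s := (Nat.Coprime.coprime_dvd_left hs hco).symm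
    obtain ⟨x, hx1, hx2⟩ := crt_int L₁ s hcos (y : ℤ) (a (s * t))
    have hne : s * t ≠ g := by
      rintro rfl
      exact hF' _ hst hgL
    apply hdisj (s * t) (mem_union_left _ hst) g (mem_union_right _ hg) hne x
    constructor
    · have e1 : x ≡ a (s * t) [ZMOD (t : ℤ)] :=
        (hx1.of_dvd (by exact_mod_cast ht)).trans hyt
      have hcost : Nat.Coprime s t := Nat.Coprime.of_dvd hs ht hco
      have := (Int.modEq_and_modEq_iff_modEq_mul (by simpa using hcost)).mp ⟨hx2, e1⟩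
      exact_mod_cast this
    · exact (hx1.of_dvd (by exact_mod_cast hgL)).trans hyg'
  set W : ℕ → Finset ℕ := fun y => L₂.divisors.filter (fun s => y ∈ T s) with hW
  have hWpair : ∀ y, ∀ s ∈ W y, ∀ s' ∈ W y, ¬ Nat.Coprime s s' := by
    intro y s hs s' hs' hcoss
    rw [hW, mem_filter] at hs hs'
    obtain ⟨hsd, hyT⟩ := hs
    obtain ⟨hsd', hyT'⟩ := hs'
    have hsL := Nat.dvd_of_mem_divisors hsd
    have hsL' := Nat.dvd_of_mem_divisors hsd'
    obtain ⟨_, t, ht, hst, hyt⟩ := hTmem s y hyT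
    obtain ⟨_, t', ht', hst', hyt'⟩ := hTmem s' y hyT'
    have hne : s * t ≠ s' * t' := by
      intro heq
      have h5 : ((s, t) : ℕ × ℕ) = (s', t') := hco.mul_injOn_divisors
        (by
          rw [mem_coe, mem_product]
          exact ⟨hsd, Nat.mem_divisors.mpr ⟨ht, h1.ne'⟩⟩)
        (by
          rw [mem_coe, mem_product]
          exact ⟨hsd', Nat.mem_divisors.mpr ⟨ht', h1.ne'⟩⟩) heq
      have h6 : s = s' := congrArg Prod.fst h5
      rw [← h6, Nat.coprime_self] at hcoss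
      rw [hcoss, one_mul] at hst
      exact hF' _ hst ht
    obtain ⟨x1, hx11, hx12⟩ := crt_int s s' hcoss (a (s * t)) (a (s' * t'))
    have hcoL : Nat.Coprime L₁ (s * s') := by
      apply Nat.Coprime.symm
      apply Nat.Coprime.mul_left
      · exact Nat.Coprime.coprime_dvd_left hsL hco
      · exact Nat.Coprime.coprime_dvd_left hsL' hco
    obtain ⟨x, hx1, hx2⟩ := crt_int L₁ (s * s') hcoL (y : ℤ) x1
    apply hdisj (s * t) (mem_union_left _ hst) (s' * t') (mem_union_left _ hst') hne x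
    constructor
    · have e1 : x ≡ a (s * t) [ZMOD (t : ℤ)] :=
        (hx1.of_dvd (by exact_mod_cast ht)).trans hyt
      have e2 : x ≡ a (s * t) [ZMOD (s : ℤ)] :=
        (hx2.of_dvd (by push_cast; exact Dvd.intro _ rfl)).trans hx11
      have hcost : Nat.Coprime s t := Nat.Coprime.of_dvd hsL ht hco
      have := (Int.modEq_and_modEq_iff_modEq_mul (by simpa using hcost)).mp ⟨e2, e1⟩
      exact_mod_cast this
    · have e1 : x ≡ a (s' * t') [ZMOD (t' : ℤ)] :=
        (hx1.of_dvd (by exact_mod_cast ht')).trans hyt'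
      have e2 : x ≡ a (s' * t') [ZMOD (s' : ℤ)] :=
        (hx2.of_dvd (by push_cast; exact Dvd.intro_left _ rfl)).trans hx12
      have hcost : Nat.Coprime s' t' := Nat.Coprime.of_dvd hsL' ht' hco
      have := (Int.modEq_and_modEq_iff_modEq_mul (by simpa using hcost)).mp ⟨e2, e1⟩
      exact_mod_cast this
  have hWsum : ∀ y, (k : ℝ) * ((Nat.totient L₂ : ℝ) * ∑ s ∈ W y, (1 : ℝ) / s) ≤ (L₂ : ℝ) := by
    intro y
    apply lemmaB L₂ k h2 hk (W y) _ (hWpair y)
    intro s hs
    exact Nat.dvd_of_mem_divisors (mem_filter.mp hs).1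
  have hsplit := sum_split L₂ L₁ h2 h1 hco F hF (fun n => (1 : ℝ) / n)
  rw [hsplit, Nat.totient_mul hco, Nat.cast_mul]
  calc (k : ℝ) * ((Nat.totient L₂ : ℝ) * (Nat.totient L₁ : ℝ) *
        ∑ s ∈ L₂.divisors, ∑ t ∈ B s, (1 : ℝ) / ((s * t : ℕ) : ℝ))
      = (k : ℝ) * ((Nat.totient L₂ : ℝ) * ∑ s ∈ L₂.divisors, (1 / (s : ℝ)) *
        ((Nat.totient L₁ : ℝ) * ∑ t ∈ B s, (1 : ℝ) / t)) := by
        congr 1
        rw [mul_assoc, mul_sum (s := L₂.divisors)]
        congr 1
        apply sum_congr rfl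
        intro s _
        rw [mul_sum, mul_sum, mul_sum]
        apply sum_congr rfl
        intro t _
        push_cast
        ring
    _ ≤ (k : ℝ) * ((Nat.totient L₂ : ℝ) *
          ∑ s ∈ L₂.divisors, (1 / (s : ℝ)) * ((T s).card : ℝ)) := by
        apply mul_le_mul_of_nonneg_left _ (by positivity)
        apply mul_le_mul_of_nonneg_left _ (by positivity)
        apply sum_le_sum
        intro s _
        exact mul_le_mul_of_nonneg_left (hTsum s) (by positivity)
    _ = ∑ y ∈ U, (k : ℝ) * ((Nat.totient L₂ : ℝ) * ∑ s ∈ W y, (1 : ℝ) / s) := by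
        have hTr : ∀ s, s ∈ L₂.divisors →
            ((T s).card : ℝ) = ∑ y ∈ U, if y ∈ T s then (1 : ℝ) else 0 := by
          intro s hs
          rw [← sum_filter, card_eq_sum_ones, Nat.cast_sum]
          simp only [Nat.cast_one]
          apply sum_congr _ (fun _ _ => rfl)
          ext y
          rw [mem_filter]
          constructor
          · intro h
            exact ⟨hTU s (Nat.dvd_of_mem_divisors hs) h, h⟩
          · intro h; exact h.2
        rw [← mul_sum, ← mul_sum]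
        congr 2
        simp only [hW, sum_filter]
        rw [sum_comm]
        apply sum_congr rfl
        intro s hs
        rw [hTr s hs, mul_sum]
        apply sum_congr rfl
        intro y _
        split_ifs <;> simp
    _ ≤ ∑ y ∈ U, (L₂ : ℝ) := sum_le_sum (fun y _ => hWsum y)
    _ = (L₂ : ℝ) * L₁ * (1 - ∑ g ∈ G, (1 : ℝ) / g) := by
        rw [sum_const, nsmul_eq_mul, hUcard]
        ring

/-! ### A bound for `L / totient(L)` -/

/-- the product of `1 - 1/p` over primes `p ≤ M` -/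
noncomputable def h (M : ℕ) : ℝ := ∏ p ∈ (range (M + 1)).filter Nat.Prime, (1 - 1 / (p : ℝ))

theorem h_succ_prime (M : ℕ) (hp : (M + 1).Prime) :
    h (M + 1) = h M * (1 - 1 / ((M + 1 : ℕ) : ℝ)) := by
  unfold h
  rw [range_add_one (n := M + 1), filter_insert, if_pos hp, prod_insert, mul_comm]
  rw [mem_filter, mem_range]
  intro hh
  exact absurd hh.1 (lt_irrefl _)

theorem h_succ_not_prime (M : ℕ) (hp : ¬ (M + 1).Prime) : h (M + 1) = h M := by
  unfold h
  rw [range_add_one (n := M + 1), filter_insert, if_neg hp]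

theorem h_pos (M : ℕ) : 0 < h M := by
  unfold h
  apply prod_pos
  intro p hp
  have hp' : (1 : ℝ) < p := by exact_mod_cast (mem_filter.mp hp).2.one_lt
  rw [sub_pos, div_lt_one (by linarith)]
  exact hp'

theorem h_two : h 2 = 1 / 2 := by
  have h1 := h_succ_prime 1 (by norm_num)
  have h2 := h_succ_not_prime 0 (by norm_num)
  have h0 : h 0 = 1 := by
    unfold h
    apply prod_eq_one
    intro p hp
    rw [mem_filter, mem_range] at hp
    have := hp.2.two_le
    omega
  norm_num at h1 h2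
  rw [h1, h2, h0]
  norm_num

theorem h_one : h 1 = 1 := by
  have h1 := h_succ_prime 1 (by norm_num)
  have h2 := h_two
  norm_num at h1
  rw [h2] at h1
  linarith

theorem h_three : h 3 = 1 / 3 := by
  have h1 := h_succ_prime 2 (by norm_num)
  norm_num at h1
  rw [h1, h_two]
  norm_num

theorem h_odd (k : ℕ) : 1 ≤ 4 * (2 * (k + 1 : ℝ) + 1) * (h (2 * (k + 1) + 1)) ^ 2 := by
  induction k with
  | zero =>
    have : h (2 * (0 + 1) + 1) = 1 / 3 := h_three
    rw [this]
    norm_num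
  | succ k ih =>
    have e1 : h (2 * (k + 1) + 1 + 1) = h (2 * (k + 1) + 1) := by
      apply h_succ_not_prime
      intro hp
      have : 2 ∣ 2 * (k + 1) + 1 + 1 := ⟨k + 2, by ring⟩
      rcases (Nat.dvd_prime hp).mp this with h2 | h2 <;> omega
    have e2 : h (2 * (k + 1) + 1) * (1 - 1 / ((2 * (k + 1) + 1 + 1 + 1 : ℕ) : ℝ))
        ≤ h (2 * (k + 1) + 1 + 1 + 1) := by
      by_cases hp : (2 * (k + 1) + 1 + 1 + 1).Prime
      · rw [h_succ_prime _ hp, e1]
      · rw [h_succ_not_prime _ hp, e1]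
        have h1 := h_pos (2 * (k + 1) + 1)
        have h2 : (0 : ℝ) ≤ 1 / ((2 * (k + 1) + 1 + 1 + 1 : ℕ) : ℝ) := by positivity
        nlinarith
    have e3 : h (2 * (k + 1 + 1) + 1) = h (2 * (k + 1) + 1 + 1 + 1) := by
      congr 1
    rw [e3]
    set H := h (2 * (k + 1) + 1) with hH
    set H' := h (2 * (k + 1) + 1 + 1 + 1) with hH'
    have hHpos : 0 < H := h_pos _
    set x : ℝ := (k : ℝ) with hx
    have hx0 : 0 ≤ x := by positivity
    have e4 : (1 - 1 / ((2 * (k + 1) + 1 + 1 + 1 : ℕ) : ℝ)) = (2 * x + 4) / (2 * x + 5) := by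
      push_cast
      rw [← hx]
      field_simp
      ring
    rw [e4] at e2
    have e5 : (H * ((2 * x + 4) / (2 * x + 5))) ^ 2 ≤ H' ^ 2 := by
      apply pow_le_pow_left₀ (by positivity) e2
    have e6 : (H * ((2 * x + 4) / (2 * x + 5))) ^ 2 * (2 * x + 5) ^ 2 = H ^ 2 * (2 * x + 4) ^ 2 := by
      field_simp
    push_cast
    have e7 : H ^ 2 * (2 * x + 4) ^ 2 ≤ H' ^ 2 * (2 * x + 5) ^ 2 := by
      rw [← e6]
      exact mul_le_mul_of_nonneg_right e5 (by positivity)
    have e8 : 1 * (2 * x + 5) ≤ 4 * (2 * (x + 1) + 1) * H ^ 2 * (2 * x + 5) :=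
      mul_le_mul_of_nonneg_right ih (by positivity)
    have e9 : (2 * x + 3) * (2 * x + 5) ≤ (2 * x + 4) ^ 2 := by nlinarith
    have e10 : H ^ 2 * ((2 * x + 3) * (2 * x + 5)) ≤ H ^ 2 * (2 * x + 4) ^ 2 :=
      mul_le_mul_of_nonneg_left e9 (by positivity)
    have e11 : (2 * x + 5) ≤ 4 * (H' ^ 2 * (2 * x + 5) ^ 2) := by nlinarith
    have e12 : 4 * (H' ^ 2 * (2 * x + 5) ^ 2)
        = (4 * (2 * (x + 1 + 1) + 1) * H' ^ 2) * (2 * x + 5) := by ring
    rw [e12] at e11
    by_contra hcon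
    push Not at hcon
    have : (4 * (2 * (x + 1 + 1) + 1) * H' ^ 2) * (2 * x + 5) < 1 * (2 * x + 5) :=
      mul_lt_mul_of_pos_right hcon (by positivity)
    linarith

theorem h_bound (M : ℕ) (hM : 1 ≤ M) : 1 ≤ 4 * (M : ℝ) * (h M) ^ 2 := by
  rcases Nat.lt_or_ge M 3 with hlt | hge
  · interval_cases M
    · rw [h_one]; norm_num
    · rw [h_two]; norm_num
  · rcases Nat.even_or_odd' M with ⟨j, hj | hj⟩
    · -- even
      obtain ⟨k, rfl⟩ : ∃ k, j = k + 2 := ⟨j - 2, by omega⟩
      have e1 : h (2 * (k + 1) + 1 + 1) = h (2 * (k + 1) + 1) := by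
        apply h_succ_not_prime
        intro hp
        have : 2 ∣ 2 * (k + 1) + 1 + 1 := ⟨k + 2, by ring⟩
        rcases (Nat.dvd_prime hp).mp this with h2 | h2 <;> omega
      have e2 : M = 2 * (k + 1) + 1 + 1 := by omega
      rw [e2, e1]
      have := h_odd k
      push_cast
      have hpos := h_pos (2 * (k + 1) + 1)
      nlinarith [sq_nonneg (h (2 * (k + 1) + 1))]
    · obtain ⟨k, rfl⟩ : ∃ k, j = k + 1 := ⟨j - 1, by omega⟩
      rw [hj]
      have := h_odd k
      push_cast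
      exact this

theorem totient_ge (L M : ℕ) (hM : 1 ≤ M) (hL : 0 < L) (hsm : ∀ p : ℕ, p.Prime → p ∣ L → p ≤ M) :
    (L : ℝ) ≤ 2 * Real.sqrt M * (Nat.totient L : ℝ) := by
  have h1 : (Nat.totient L : ℝ) = L * ∏ p ∈ L.primeFactors, (1 - 1 / (p : ℝ)) := by
    have h2 := Nat.totient_eq_mul_prod_factors L
    have h3 := congrArg (Rat.cast (K := ℝ)) h2
    push_cast at h3
    rw [h3]
    simp only [one_div]
  have h2 : h M ≤ ∏ p ∈ L.primeFactors, (1 - 1 / (p : ℝ)) := by
    unfold h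
    have hsub : L.primeFactors ⊆ (range (M + 1)).filter Nat.Prime := by
      intro p hp
      have hpp := Nat.prime_of_mem_primeFactors hp
      rw [mem_filter, mem_range]
      exact ⟨Nat.lt_succ_of_le (hsm p hpp (Nat.dvd_of_mem_primeFactors hp)), hpp⟩
    rw [← prod_sdiff hsub]
    have hpos : 0 ≤ ∏ p ∈ L.primeFactors, (1 - 1 / (p : ℝ)) := by
      apply prod_nonneg
      intro p hp
      have hp1 : (1 : ℝ) ≤ p := by exact_mod_cast (Nat.prime_of_mem_primeFactors hp).one_lt.le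
      have : 1 / (p : ℝ) ≤ 1 := by
        rw [div_le_one (by linarith)]
        exact hp1
      linarith
    have hle1 : ∏ p ∈ ((range (M + 1)).filter Nat.Prime) \ L.primeFactors, (1 - 1 / (p : ℝ)) ≤ 1 := by
      apply prod_le_one
      · intro p hp
        have hp' := (mem_filter.mp (mem_sdiff.mp hp).1).2
        have hp1 : (1 : ℝ) ≤ p := by exact_mod_cast hp'.one_lt.le
        have : 1 / (p : ℝ) ≤ 1 := by
          rw [div_le_one (by linarith)]
          exact hp1
        linarith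
      · intro p _
        have : (0 : ℝ) ≤ 1 / (p : ℝ) := by positivity
        linarith
    calc _ ≤ 1 * ∏ p ∈ L.primeFactors, (1 - 1 / (p : ℝ)) := mul_le_mul_of_nonneg_right hle1 hpos
      _ = _ := one_mul _
  have h3 := h_bound M hM
  have h4 : 1 ≤ 2 * Real.sqrt M * h M := by
    have hpos := h_pos M
    have h5 : (1 : ℝ) ^ 2 ≤ (2 * Real.sqrt M * h M) ^ 2 := by
      have h6 : (2 * Real.sqrt M * h M) ^ 2 = 4 * (Real.sqrt M ^ 2) * (h M) ^ 2 := by ring
      rw [h6, Real.sq_sqrt (by positivity)]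
      linarith
    exact le_of_sq_le_sq h5 (by positivity)
  have hL' : (0 : ℝ) < L := by exact_mod_cast hL
  rw [h1]
  calc (L : ℝ) = L * 1 := (mul_one _).symm
    _ ≤ L * (2 * Real.sqrt M * h M) := mul_le_mul_of_nonneg_left h4 hL'.le
    _ ≤ L * (2 * Real.sqrt M * ∏ p ∈ L.primeFactors, (1 - 1 / (p : ℝ))) := by
        apply mul_le_mul_of_nonneg_left _ hL'.le
        exact mul_le_mul_of_nonneg_left h2 (by positivity)
    _ = _ := by ring

/-! ### Passing to infinitely many classes -/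

/-- all prime factors of `n` are at most `N` -/
def Sm (N n : ℕ) : Prop := ∀ p : ℕ, p.Prime → p ∣ n → p ≤ N

theorem Sm.mono {N M n : ℕ} (hNM : N ≤ M) (hn : Sm N n) : Sm M n :=
  fun p hp hpn => (hn p hp hpn).trans hNM

theorem exists_split (N n : ℕ) : 0 < n → ∃ L₁ L₂ : ℕ, 0 < L₁ ∧ 0 < L₂ ∧ n = L₂ * L₁ ∧
    Sm N L₁ ∧ (∀ p : ℕ, p.Prime → p ∣ L₂ → N < p) := by
  induction n using induction_on_primes with
  | zero => intro hh; exact absurd hh (lt_irrefl _)
  | one =>
    intro _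
    refine ⟨1, 1, one_pos, one_pos, by norm_num, ?_, ?_⟩
    · intro p hp hp1
      exact absurd (Nat.dvd_one.mp hp1) hp.one_lt.ne'
    · intro p hp hp1
      exact absurd (Nat.dvd_one.mp hp1) hp.one_lt.ne'
  | prime_mul p a hp ih =>
    intro hpa
    have ha : 0 < a := Nat.pos_of_mul_pos_left hpa
    obtain ⟨L₁, L₂, h1, h2, he, hs1, hs2⟩ := ih ha
    by_cases hpN : p ≤ N
    · refine ⟨p * L₁, L₂, Nat.mul_pos hp.pos h1, h2, by rw [he]; ring, ?_, hs2⟩
      intro q hq hqd
      rcases (Nat.Prime.dvd_mul hq).mp hqd with hh | hh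
      · have := (Nat.prime_dvd_prime_iff_eq hq hp).mp hh
        rw [this]; exact hpN
      · exact hs1 q hq hh
    · refine ⟨L₁, p * L₂, h1, Nat.mul_pos hp.pos h2, by rw [he]; ring, hs1, ?_⟩
      intro q hq hqd
      rcases (Nat.Prime.dvd_mul hq).mp hqd with hh | hh
      · have := (Nat.prime_dvd_prime_iff_eq hq hp).mp hh
        rw [this]; exact Nat.lt_of_not_le hpN
      · exact hs2 q hq hh

/-- The finite inequality in terms of smooth numbers. -/
theorem finite_smooth (N M k : ℕ) (hNM : N ≤ M) (hM : 1 ≤ M)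
    (hk : ∀ q : ℕ, q.Prime → N < q → k ≤ q) (F G : Finset ℕ) (a : ℕ → ℤ)
    (hpos : ∀ n ∈ F ∪ G, 0 < n)
    (hG : ∀ g ∈ G, Sm N g) (hF : ∀ f ∈ F, Sm M f) (hF' : ∀ f ∈ F, ¬ Sm N f)
    (hdisj : ∀ m ∈ F ∪ G, ∀ n ∈ F ∪ G, m ≠ n →
      ∀ x : ℤ, ¬ (x ≡ a m [ZMOD (m : ℤ)] ∧ x ≡ a n [ZMOD (n : ℤ)]))
    (hG1 : ∑ g ∈ G, (1 : ℝ) / g ≤ 1) :
    (k : ℝ) * ∑ f ∈ F, (1 : ℝ) / f + 2 * Real.sqrt M * ∑ g ∈ G, (1 : ℝ) / g
      ≤ 2 * Real.sqrt M := by
  classical
  set Λ := ∏ n ∈ F ∪ G, n with hΛ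
  have hΛ0 : 0 < Λ := prod_pos hpos
  have hΛM : Sm M Λ := by
    intro p hp hpd
    obtain ⟨n, hn, hpn⟩ := (Prime.dvd_finsetProd_iff hp.prime _).mp hpd
    rcases mem_union.mp hn with hh | hh
    · exact hF n hh p hp hpn
    · exact (hG n hh).mono hNM p hp hpn
  obtain ⟨L₁, L₂, h1, h2, he, hs1, hs2⟩ := exists_split N Λ hΛ0
  have hco : Nat.Coprime L₂ L₁ := by
    rw [Nat.coprime_iff_gcd_eq_one] 
    by_contra hne
    obtain ⟨q, hq, hqg⟩ := Nat.exists_prime_and_dvd hne
    have hq1 := hs1 q hq (hqg.trans (Nat.gcd_dvd_right _ _))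
    have hq2 := hs2 q hq (hqg.trans (Nat.gcd_dvd_left _ _))
    omega
  have hdv : ∀ n ∈ F ∪ G, n ∣ L₂ * L₁ := by
    intro n hn
    rw [← he, hΛ]
    exact dvd_prod_of_mem _ hn
  have hmain := main_finite L₁ L₂ k h1 h2 hco
    (fun q hq hqd => hk q hq (hs2 q hq hqd)) F G a
    (by
      intro g hg
      have hd := hdv g (mem_union_right _ hg)
      have hcog : Nat.Coprime g L₂ := by
        by_contra hne
        obtain ⟨q, hq, hqg, hqL⟩ := Nat.Prime.not_coprime_iff_dvd.mp hne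
        have hq1 := hG g hg q hq hqg
        have hq2 := hs2 q hq hqL
        omega
      exact Nat.Coprime.dvd_of_dvd_mul_left hcog hd)
    (fun f hf => hdv f (mem_union_left _ hf))
    (by
      intro f hf hfd
      apply hF' f hf
      intro p hp hpf
      exact hs1 p hp (hpf.trans hfd))
    hdisj
  have htot := totient_ge (L₂ * L₁) M hM (Nat.mul_pos h2 h1) (by rw [← he]; exact hΛM)
  push_cast at htot
  have hφ : 0 < (Nat.totient (L₂ * L₁) : ℝ) := by
    exact_mod_cast Nat.totient_pos.mpr (Nat.mul_pos h2 h1)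
  have h1G : 0 ≤ 1 - ∑ g ∈ G, (1 : ℝ) / g := by linarith
  have h3 : (Nat.totient (L₂ * L₁) : ℝ) * ((k : ℝ) * ∑ f ∈ F, (1 : ℝ) / f)
      ≤ (Nat.totient (L₂ * L₁) : ℝ) * (2 * Real.sqrt M * (1 - ∑ g ∈ G, (1 : ℝ) / g)) := by
    calc (Nat.totient (L₂ * L₁) : ℝ) * ((k : ℝ) * ∑ f ∈ F, (1 : ℝ) / f)
        = (k : ℝ) * ((Nat.totient (L₂ * L₁) : ℝ) * ∑ f ∈ F, (1 : ℝ) / f) := by ring
      _ ≤ (L₂ : ℝ) * L₁ * (1 - ∑ g ∈ G, (1 : ℝ) / g) := hmain
      _ ≤ (2 * Real.sqrt M * (Nat.totient (L₂ * L₁) : ℝ)) * (1 - ∑ g ∈ G, (1 : ℝ) / g) :=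
          mul_le_mul_of_nonneg_right htot h1G
      _ = _ := by ring
  have h4 := le_of_mul_le_mul_left h3 hφ
  linarith

section Infinite

variable (D : Set ℕ) (a : ℕ → ℤ)

open scoped Classical in
/-- reciprocals of the moduli -/
noncomputable def recip (P : ℕ → Prop) (n : ℕ) : ℝ := if n ∈ D ∧ P n then (1 : ℝ) / n else 0

theorem recip_nonneg (P : ℕ → Prop) (n : ℕ) : 0 ≤ recip D P n := by
  unfold recip
  split_ifs <;> positivity

/-- the total measure of the classes with `N`-smooth modulus -/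
noncomputable def sm (N : ℕ) : ℝ := ∑' n, recip D (Sm N) n

variable (hpos : ∀ n ∈ D, 0 < n)
  (hdisj : ∀ m ∈ D, ∀ n ∈ D, m ≠ n →
      ∀ x : ℤ, ¬ (x ≡ a m [ZMOD (m : ℤ)] ∧ x ≡ a n [ZMOD (n : ℤ)]))
  (hsum : HasSum (recip D (fun _ => True)) 1)

include hsum in
theorem summable_recip (P : ℕ → Prop) : Summable (recip D P) := by
  apply Summable.of_nonneg_of_le (recip_nonneg D P) _ hsum.summable
  intro n
  unfold recip
  by_cases h1 : n ∈ D ∧ P n
  · simp [h1.1, h1.2]
  · rw [if_neg h1]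
    split_ifs <;> positivity

include hpos hdisj hsum in
theorem step_ineq (N M k : ℕ) (hNM : N ≤ M) (hM : 1 ≤ M)
    (hk : ∀ q : ℕ, q.Prime → N < q → k ≤ q) :
    (k : ℝ) * (sm D M - sm D N) ≤ 2 * Real.sqrt M * (1 - sm D N) := by
  classical
  set u : ℕ → ℝ := recip D (fun n => Sm M n ∧ ¬ Sm N n) with hu
  set v : ℕ → ℝ := recip D (Sm N) with hv
  have hsu : Summable u := summable_recip D hsum _
  have hsv : Summable v := summable_recip D hsum _
  have hsplit : ∀ n, recip D (Sm M) n = v n + u n := by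
    intro n
    simp only [hu, hv, recip]
    by_cases h1 : n ∈ D
    · by_cases h2 : Sm N n
      · have h3 : Sm M n := h2.mono hNM
        simp [h1, h2, h3]
      · simp [h1, h2]
    · simp [h1]
  have hsM : sm D M = sm D N + ∑' n, u n := by
    unfold sm
    rw [← hsv.tsum_add hsu]
    exact tsum_congr hsplit
  have hfin : ∀ H : Finset ℕ, ∑ n ∈ H, ((k : ℝ) * u n + 2 * Real.sqrt M * v n)
      ≤ 2 * Real.sqrt M := by
    intro H
    set F := H.filter (fun n => n ∈ D ∧ (Sm M n ∧ ¬ Sm N n)) with hF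
    set G := H.filter (fun n => n ∈ D ∧ Sm N n) with hG
    have hmemD : ∀ n ∈ F ∪ G, n ∈ D := by
      intro n hn
      rcases mem_union.mp hn with hh | hh
      · exact (mem_filter.mp hh).2.1
      · exact (mem_filter.mp hh).2.1
    have hGsum : ∑ g ∈ G, (1 : ℝ) / g = ∑ n ∈ H, v n := by
      rw [hG, sum_filter]
      rfl
    have hFsum : ∑ f ∈ F, (1 : ℝ) / f = ∑ n ∈ H, u n := by
      rw [hF, sum_filter]
      apply sum_congr rfl
      intro n _
      simp only [hu, recip]
      by_cases hh : n ∈ D ∧ Sm M n ∧ ¬ Sm N n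
      · rw [if_pos hh, if_pos hh]
      · rw [if_neg hh, if_neg hh]
    have hG1 : ∑ g ∈ G, (1 : ℝ) / g ≤ 1 := by
      rw [hGsum]
      calc ∑ n ∈ H, v n ≤ ∑' n, v n := hsv.sum_le_tsum H (fun n _ => recip_nonneg D _ n)
        _ ≤ ∑' n, recip D (fun _ => True) n := by
            apply hsv.tsum_le_tsum _ hsum.summable
            intro n
            simp only [hv, recip]
            by_cases h1 : n ∈ D ∧ Sm N n
            · simp [h1.1, h1.2]
            · rw [if_neg h1]
              split_ifs <;> positivity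
        _ = 1 := hsum.tsum_eq
    have := finite_smooth N M k hNM hM hk F G a
      (fun n hn => hpos n (hmemD n hn))
      (fun g hg => (mem_filter.mp hg).2.2)
      (fun f hf => (mem_filter.mp hf).2.2.1)
      (fun f hf => (mem_filter.mp hf).2.2.2)
      (fun m hm n hn => hdisj m (hmemD m hm) n (hmemD n hn)) hG1
    rw [hGsum, hFsum] at this
    rw [sum_add_distrib, ← mul_sum, ← mul_sum]
    exact this
  have hsw : Summable (fun n => (k : ℝ) * u n + 2 * Real.sqrt M * v n) :=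
    (hsu.mul_left _).add (hsv.mul_left _)
  have htot := hsw.tsum_le_of_sum_le hfin
  rw [(hsu.mul_left _).tsum_add (hsv.mul_left _), tsum_mul_left, tsum_mul_left] at htot
  have hsN : sm D N = ∑' n, v n := rfl
  rw [hsM, hsN]
  linarith

include hsum in
theorem sm_le_one (N : ℕ) : sm D N ≤ 1 := by
  unfold sm
  calc ∑' n, recip D (Sm N) n ≤ ∑' n, recip D (fun _ => True) n := by
        apply (summable_recip D hsum _).tsum_le_tsum _ hsum.summable
        intro n
        unfold recip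
        by_cases h1 : n ∈ D ∧ Sm N n
        · simp [h1.1, h1.2]
        · rw [if_neg h1]
          split_ifs <;> positivity
    _ = 1 := hsum.tsum_eq

include hpos hdisj hsum in
theorem sm_lt_one_step (N : ℕ) (hN : 3 ≤ N) (hlt : sm D N < 1) : sm D (N + 1) < 1 := by
  by_cases hp : (N + 1).Prime
  · have h5 : 5 ≤ N + 1 := by
      rcases Nat.lt_or_ge N 4 with hlt4 | hge4
      · interval_cases N
        exact absurd hp (by norm_num)
      · omega
    have hs := step_ineq D a hpos hdisj hsum N (N + 1) (N + 1) (Nat.le_succ N) (by omega)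
      (fun q _ hq => hq)
    set q : ℝ := ((N + 1 : ℕ) : ℝ) with hq
    have hq5 : (5 : ℝ) ≤ q := by rw [hq]; exact_mod_cast h5
    have hsq : Real.sqrt q ^ 2 = q := Real.sq_sqrt (by linarith)
    have hsq2 : 2 < Real.sqrt q := by
      rw [show (2 : ℝ) = Real.sqrt 4 by
        rw [show (4 : ℝ) = 2 ^ 2 by norm_num, Real.sqrt_sq (by norm_num)]]
      exact Real.sqrt_lt_sqrt (by norm_num) (by linarith)
    have h2q : 2 * Real.sqrt q < q := by nlinarith
    nlinarith
  · have heq : sm D (N + 1) = sm D N := by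
      unfold sm
      apply tsum_congr
      intro n
      unfold recip
      have hiff : Sm (N + 1) n ↔ Sm N n := by
        constructor
        · intro hh p hpp hpn
          have h1 := hh p hpp hpn
          have h2 : p ≠ N + 1 := by rintro rfl; exact hp hpp
          omega
        · exact Sm.mono (Nat.le_succ N)
      rw [hiff]
    rw [heq]; exact hlt

include hpos hdisj hsum in
theorem sm_lt_one_of (hlt : sm D 3 < 1) (N : ℕ) (hN : 3 ≤ N) : sm D N < 1 := by
  induction N, hN using Nat.le_induction with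
  | base => exact hlt
  | succ N hN ih => exact sm_lt_one_step D a hpos hdisj hsum N hN ih

include hpos hdisj hsum in
theorem quad_step (i : ℕ) :
    (1 - 4 / 2 ^ i) * (1 - sm D (4 ^ i)) ≤ 1 - sm D (4 ^ (i + 1)) := by
  have hs := step_ineq D a hpos hdisj hsum (4 ^ i) (4 ^ (i + 1)) (4 ^ i)
    (Nat.pow_le_pow_right (by norm_num) (Nat.le_succ i)) (Nat.one_le_pow _ _ (by norm_num))
    (fun q _ hq => hq.le)
  have hsqrt : Real.sqrt ((4 ^ (i + 1) : ℕ) : ℝ) = 2 ^ (i + 1) := by
    have : ((4 ^ (i + 1) : ℕ) : ℝ) = (2 ^ (i + 1)) ^ 2 := by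
      push_cast
      rw [← pow_mul, mul_comm, pow_mul]
      norm_num
    rw [this, Real.sqrt_sq (by positivity)]
  rw [hsqrt] at hs
  have h4 : ((4 ^ i : ℕ) : ℝ) = 2 ^ i * 2 ^ i := by
    push_cast
    rw [← mul_pow]
    norm_num
  rw [h4] at hs
  have h2 : (0 : ℝ) < 2 ^ i := by positivity
  have h5 : (2 : ℝ) * 2 ^ (i + 1) = 2 ^ i * 4 := by rw [pow_succ]; ring
  rw [h5] at hs
  have h6 : 2 ^ i * (2 ^ i * (sm D (4 ^ (i + 1)) - sm D (4 ^ i))) ≤
      2 ^ i * (4 * (1 - sm D (4 ^ i))) := by nlinarith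
  have h7 := le_of_mul_le_mul_left h6 h2
  have h8 : sm D (4 ^ (i + 1)) - sm D (4 ^ i) ≤ 4 / 2 ^ i * (1 - sm D (4 ^ i)) := by
    have h9 : 4 / 2 ^ i * (1 - sm D (4 ^ i)) = (4 * (1 - sm D (4 ^ i))) / 2 ^ i := by ring
    rw [h9, le_div_iff₀ h2]
    linarith
  linarith

include hpos hdisj hsum in
theorem lower (i : ℕ) :
    (1 / 2 + 8 / 2 ^ (i + 4)) * (1 - sm D (4 ^ 4)) ≤ 1 - sm D (4 ^ (i + 4)) := by
  induction i with
  | zero => norm_num
  | succ i ih =>
    have hq := quad_step D a hpos hdisj hsum (i + 4)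
    have h1 : 0 ≤ 1 - sm D (4 ^ 4) := by
      have := sm_le_one D hsum (4 ^ 4)
      linarith
    set x : ℝ := 1 / 2 ^ (i + 4) with hx
    have hx0 : 0 < x := by positivity
    have hx1 : x ≤ 1 / 16 := by
      rw [hx]
      apply one_div_le_one_div_of_le (by norm_num)
      calc (16 : ℝ) = 2 ^ 4 := by norm_num
        _ ≤ 2 ^ (i + 4) := pow_le_pow_right₀ (by norm_num) (by omega)
    have e1 : (4 : ℝ) / 2 ^ (i + 4) = 4 * x := by rw [hx]; ring
    have e2 : (8 : ℝ) / 2 ^ (i + 4) = 8 * x := by rw [hx]; ring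
    have e3 : (8 : ℝ) / 2 ^ (i + 1 + 4) = 4 * x := by
      rw [hx, show i + 1 + 4 = (i + 4) + 1 by ring, pow_succ]
      ring
    rw [e1] at hq
    rw [e2] at ih
    rw [e3]
    rw [show i + 1 + 4 = (i + 4) + 1 by ring]
    have h2 : (1 - 4 * x) * ((1 / 2 + 8 * x) * (1 - sm D (4 ^ 4)))
        ≤ (1 - 4 * x) * (1 - sm D (4 ^ (i + 4))) :=
      mul_le_mul_of_nonneg_left ih (by linarith)
    have h3 : (1 / 2 + 4 * x) ≤ (1 - 4 * x) * (1 / 2 + 8 * x) := by nlinarith
    have h4 : (1 / 2 + 4 * x) * (1 - sm D (4 ^ 4)) ≤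
        (1 - 4 * x) * (1 / 2 + 8 * x) * (1 - sm D (4 ^ 4)) :=
      mul_le_mul_of_nonneg_right h3 h1
    linarith

include hpos hdisj hsum in
theorem sm_three : sm D 3 = 1 := by
  classical
  by_contra hne
  have hlt : sm D 3 < 1 := lt_of_le_of_ne (sm_le_one D hsum 3) hne
  have h256 : sm D (4 ^ 4) < 1 := sm_lt_one_of D a hpos hdisj hsum hlt _ (by norm_num)
  set c := (1 - sm D (4 ^ 4)) / 2 with hc
  have hc0 : 0 < c := half_pos (sub_pos.mpr h256)
  have hlow : ∀ i, sm D (4 ^ (i + 4)) ≤ 1 - c := by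
    intro i
    have h1 := lower D a hpos hdisj hsum i
    have h2 : (0 : ℝ) < 8 / 2 ^ (i + 4) := by positivity
    have h3 : (1 / 2) * (1 - sm D (4 ^ 4)) ≤ (1 / 2 + 8 / 2 ^ (i + 4)) * (1 - sm D (4 ^ 4)) := by
      apply mul_le_mul_of_nonneg_right _ (by linarith)
      linarith
    rw [hc]
    linarith
  -- a finite set carrying more than `1 - c`
  have hev := (hsum.eventually (lt_mem_nhds (show 1 - c < 1 by linarith))).exists
  obtain ⟨H, hH⟩ := hev
  -- all its elements are smooth for large `i`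
  obtain ⟨B, hB⟩ : ∃ B : ℕ, ∀ n ∈ H, n ≤ B := ⟨H.sup id, fun n hn => le_sup (f := id) hn⟩
  have hi : B ≤ 4 ^ (B + 4) := by
    have h1 : B < 4 ^ B := Nat.lt_pow_self (by norm_num)
    have h2 : 4 ^ B ≤ 4 ^ (B + 4) := Nat.pow_le_pow_right (by norm_num) (by omega)
    omega
  have hle : ∑ n ∈ H, recip D (fun _ => True) n ≤ sm D (4 ^ (B + 4)) := by
    have h1 : ∑ n ∈ H, recip D (fun _ => True) n = ∑ n ∈ H, recip D (Sm (4 ^ (B + 4))) n := by
      apply sum_congr rfl
      intro n hn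
      unfold recip
      by_cases hnD : n ∈ D
      · have hsm : Sm (4 ^ (B + 4)) n := by
          intro p hp hpn
          exact ((Nat.le_of_dvd (hpos n hnD) hpn).trans (hB n hn)).trans hi
        simp [hnD, hsm]
      · simp [hnD]
    rw [h1]
    exact (summable_recip D hsum _).sum_le_tsum H (fun n _ => recip_nonneg D _ n)
  have := hlow B
  linarith

include hpos hdisj hsum in
theorem all_smooth (n : ℕ) (hn : n ∈ D) : Sm 3 n := by
  classical
  by_contra hcon
  have h1 : sm D 3 + (1 : ℝ) / n ≤ 1 := by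
    have hsv : Summable (recip D (Sm 3)) := summable_recip D hsum _
    have hsw : Summable (recip D (fun m => m = n)) := summable_recip D hsum _
    have h2 : ∑' m, recip D (fun m => m = n) m = 1 / (n : ℝ) := by
      rw [tsum_eq_single n]
      · unfold recip; simp [hn]
      · intro m hm
        unfold recip
        simp [hm]
    have h3 : sm D 3 + ∑' m, recip D (fun m => m = n) m ≤ 1 := by
      unfold sm
      rw [← hsv.tsum_add hsw, ← hsum.tsum_eq]
      apply (hsv.add hsw).tsum_le_tsum _ hsum.summable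
      intro m
      unfold recip
      by_cases hmn : m = n
      · subst hmn
        simp [hn, hcon]
      · by_cases hmD : m ∈ D
        · by_cases h4 : Sm 3 m
          · simp [hmD, h4, hmn]
          · simp [hmD, h4, hmn]
        · simp [hmD]
    rw [h2] at h3
    exact h3
  rw [sm_three D a hpos hdisj hsum] at h1
  have h4 : (0 : ℝ) < 1 / n := by
    have := hpos n hn
    positivity
  linarith

end Infinite

theorem smooth_three (n : ℕ) : 0 < n → Sm 3 n → ∃ α β : ℕ, n = 2 ^ α * 3 ^ β := by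
  induction n using induction_on_primes with
  | zero => intro hh; exact absurd hh (lt_irrefl _)
  | one => intro _ _; exact ⟨0, 0, by norm_num⟩
  | prime_mul p a hp ih =>
    intro hpa hs
    have ha : 0 < a := Nat.pos_of_mul_pos_left hpa
    obtain ⟨α, β, he⟩ := ih ha (fun q hq hqa => hs q hq (hqa.mul_left p))
    have hp3 : p ≤ 3 := hs p hp (Dvd.intro a rfl)
    have hp2 := hp.two_le
    interval_cases p
    · exact ⟨α + 1, β, by rw [he]; ring⟩
    · exact ⟨α, β + 1, by rw [he]; ring⟩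

/-- Sanity check: the classes `2^k mod 2^(k+1)`, `k = 0, 1, 2, ...`, form an infinite disjoint
covering system with distinct moduli and reciprocal sum `1`. -/
theorem powers_of_two_system :
    IsInfiniteDisjointCoveringSystem (fun k : ℕ => (2 : ℤ) ^ k) (fun k : ℕ => 2 ^ (k + 1)) ∧
      Function.Injective (fun k : ℕ => 2 ^ (k + 1)) ∧
      ∑' k : ℕ, (1 : ℝ) / ((2 ^ (k + 1) : ℕ) : ℝ) = 1 := by
  refine ⟨⟨inferInstance, ?_, ?_⟩, ?_, ?_⟩
  · intro k
    calc 2 = 2 ^ 1 := by norm_num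
      _ ≤ 2 ^ (k + 1) := Nat.pow_le_pow_right (by norm_num) (by omega)
  · intro n hn
    obtain ⟨N, rfl⟩ : ∃ N : ℕ, n = N := ⟨n.toNat, (Int.toNat_of_nonneg hn.le).symm⟩
    have hN : N ≠ 0 := by rintro rfl; simp at hn
    obtain ⟨k, j, hj, hNj⟩ := Nat.exists_eq_two_pow_mul_odd hN
    obtain ⟨i, rfl⟩ := hj
    refine ⟨k, ?_, ?_⟩
    · change (N : ℤ) ≡ 2 ^ k [ZMOD ((2 ^ (k + 1) : ℕ) : ℤ)]
      apply Int.ModEq.symm
      rw [Int.modEq_iff_dvd]
      refine ⟨i, ?_⟩
      rw [hNj]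
      push_cast
      ring
    · intro l hl
      change (N : ℤ) ≡ 2 ^ l [ZMOD ((2 ^ (l + 1) : ℕ) : ℤ)] at hl
      have h1 := hl.symm
      rw [Int.modEq_iff_dvd] at h1
      obtain ⟨c, hc⟩ := h1
      push_cast at hc
      have h2 : (N : ℤ) = 2 ^ l * (2 * c + 1) := by
        rw [pow_succ] at hc
        linear_combination hc
      have h3 : (N : ℤ) = 2 ^ k * (2 * i + 1) := by
        rw [hNj]; push_cast; ring
      rcases lt_trichotomy l k with hlt | heq | hgt
      · exfalso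
        obtain ⟨d, rfl⟩ : ∃ d, k = l + 1 + d := ⟨k - l - 1, by omega⟩
        rw [h2] at h3
        have h4 : (2 : ℤ) ^ l ≠ 0 := by positivity
        have h5 : (2 * c + 1 : ℤ) = 2 * (2 ^ d * (2 * i + 1)) := by
          apply mul_left_cancel₀ h4
          rw [h3]; ring
        omega
      · exact heq
      · exfalso
        obtain ⟨d, rfl⟩ : ∃ d, l = k + 1 + d := ⟨l - k - 1, by omega⟩
        rw [h2] at h3
        have h4 : (2 : ℤ) ^ k ≠ 0 := by positivity
        have h5 : (2 * i + 1 : ℤ) = 2 * (2 ^ d * (2 * c + 1)) := by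
          apply mul_left_cancel₀ h4
          rw [← h3]; ring
        omega
  · intro k l hkl
    have := Nat.pow_right_injective (le_refl 2) hkl
    omega
  · have h1 : ∀ k : ℕ, (1 : ℝ) / ((2 ^ (k + 1) : ℕ) : ℝ) = 1 / 2 / 2 ^ k := by
      intro k
      push_cast
      rw [pow_succ]
      field_simp
    simp_rw [h1]
    rw [tsum_geometric_two' (1 : ℝ)]

/-- **The Fraenkel-Simpson conjecture.** In every infinite disjoint covering system of the
positive integers with distinct moduli and reciprocal sum `1`, every modulus has the form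
`2^α 3^β`. -/
theorem result {ι : Type*} (a : ι → ℤ) (m : ι → ℕ)
    (hsys : IsInfiniteDisjointCoveringSystem a m)
    (hdistinct : Function.Injective m)
    (hsum : ∑' i, (1 : ℝ) / (m i : ℝ) = 1) :
    ∀ i, ∃ α β : ℕ, m i = 2 ^ α * 3 ^ β := by
  classical
  set D : Set ℕ := Set.range m with hD
  set b : ℕ → ℤ := Function.extend m a 0 with hb
  have hbm : ∀ i, b (m i) = a i := fun i => hdistinct.extend_apply a 0 i
  have hpos : ∀ n ∈ D, 0 < n := by
    rintro n ⟨i, rfl⟩
    have := hsys.two_le i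
    omega
  have hdisj : ∀ n ∈ D, ∀ n' ∈ D, n ≠ n' →
      ∀ x : ℤ, ¬ (x ≡ b n [ZMOD (n : ℤ)] ∧ x ≡ b n' [ZMOD (n' : ℤ)]) := by
    rintro n ⟨i, rfl⟩ n' ⟨j, rfl⟩ hne x ⟨hx1, hx2⟩
    rw [hbm] at hx1 hx2
    -- a positive integer in both classes
    have hi := hsys.two_le i
    have hj := hsys.two_le j
    set y : ℤ := x + (m i : ℤ) * (m j : ℤ) * (|x| + 1) with hy
    have hy0 : 0 < y := by
      have h1 : (1 : ℤ) ≤ (m i : ℤ) * (m j : ℤ) := by
        have : 1 ≤ m i * m j := Nat.one_le_iff_ne_zero.mpr (by positivity)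
        exact_mod_cast this
      have h2 : 0 ≤ |x| := abs_nonneg x
      have h3 : -|x| ≤ x := neg_abs_le x
      nlinarith
    have hy1 : y ∈ residueClass (a i) (m i) := by
      change y ≡ a i [ZMOD (m i : ℤ)]
      have h1 : x ≡ y [ZMOD (m i : ℤ)] := by
        rw [Int.modEq_iff_dvd]
        exact ⟨(m j : ℤ) * (|x| + 1), by rw [hy]; ring⟩
      exact h1.symm.trans hx1
    have hy2 : y ∈ residueClass (a j) (m j) := by
      change y ≡ a j [ZMOD (m j : ℤ)]
      have h1 : x ≡ y [ZMOD (m j : ℤ)] := by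
        rw [Int.modEq_iff_dvd]
        exact ⟨(m i : ℤ) * (|x| + 1), by rw [hy]; ring⟩
      exact h1.symm.trans hx2
    obtain ⟨l, _, hl⟩ := hsys.exactly_one y hy0
    apply hne
    rw [hl i hy1, hl j hy2]
  have hs : HasSum (recip D (fun _ => True)) 1 := by
    have h1 : Summable (fun i => (1 : ℝ) / (m i : ℝ)) := by
      by_contra hcon
      rw [tsum_eq_zero_of_not_summable hcon] at hsum
      exact zero_ne_one hsum
    have h2 : HasSum (fun i => (1 : ℝ) / (m i : ℝ)) 1 := by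
      have h4 := h1.hasSum
      rw [hsum] at h4
      exact h4
    have h3 : recip D (fun _ => True) = Function.extend m (fun i => (1 : ℝ) / (m i : ℝ)) 0 := by
      funext n
      unfold recip
      by_cases hn : n ∈ D
      · obtain ⟨i, rfl⟩ := hn
        rw [hdistinct.extend_apply, if_pos ⟨⟨i, rfl⟩, trivial⟩]
      · rw [if_neg (fun hh => hn hh.1), Function.extend_apply']
        · rfl
        · rintro ⟨i, rfl⟩
          exact hn ⟨i, rfl⟩
    rw [h3, hasSum_extend_zero hdistinct]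
    exact h2
  intro i
  have hi := hsys.two_le i
  exact smooth_three (m i) (by omega) (all_smooth D b hpos hdisj hs (m i) ⟨i, rfl⟩)

end Pool.Agent.Results.MP_cda74c_nt.Full
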